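import Mathlib
import Pool.Agent.H355R3.UF.Stmts

set_option autoImplicit false

/-! Project H355-UF, Task C: fullness of the residual of a wreath product. -/

namespace H190R3.UF

open H355R3 RegularWreathProduct

section restr

variable {M G : Type} [Group M] [Group G]

/-- restriction of the elements `w` of `M ≀ G` with `w.right ∈ N` to `M ≀ N` -/
def restr (N : Subgroup G) :
    (N.comap (rightHom : RegularWreathProduct M G →* G)) →* RegularWreathProduct M N where
  toFun w := ⟨fun x => (w : RegularWreathProduct M G).left (x : G),
    ⟨(w : RegularWreathProduct M G).right, w.2⟩⟩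
  map_one' := by
    apply RegularWreathProduct.ext
    · funext x; rfl
    · rfl
  map_mul' a b := by
    apply RegularWreathProduct.ext
    · funext x; rfl
    · rfl

theorem restr_surj (N : Subgroup G) : Function.Surjective (restr (M := M) N) := by
  classical
  intro w
  refine ⟨⟨⟨fun g => if h : g ∈ N then w.left ⟨g, h⟩ else 1, (w.right : G)⟩, w.right.2⟩, ?_⟩
  apply RegularWreathProduct.ext
  · funext x
    show (if h : (x : G) ∈ N then w.left ⟨x, h⟩ else 1) = w.left x
    rw [dif_pos x.2]
  · rfl

end restr

theorem taskC : H355R3.UF.TaskC := by
  classical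
  intro hC1 hC2 A B M G _ _ _ _ hT hA
  -- the residual consists of elements with right part in `N`
  have hmap := B.map_residual (rightHom : RegularWreathProduct M G →* G) rightHom_surj
  have hUL : B.residual (RegularWreathProduct M G) ≤
      (B.residual G).comap (rightHom : RegularWreathProduct M G →* G) := by
    rw [← Subgroup.map_le_iff_le_comap, hmap]
  let L := (B.residual G).comap (rightHom : RegularWreathProduct M G →* G)
  let V : Subgroup (RegularWreathProduct M (B.residual G)) :=
    ((B.residual (RegularWreathProduct M G)).subgroupOf L).map (restr (B.residual G))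
  have hVn : V.Normal := Subgroup.Normal.map inferInstance _ (restr_surj (B.residual G))
  have hmemV : ∀ (u : RegularWreathProduct M G) (hu : u ∈ B.residual (RegularWreathProduct M G)),
      restr (B.residual G) ⟨u, hUL hu⟩ ∈ V := fun u hu => ⟨⟨u, hUL hu⟩, hu, rfl⟩
  by_cases hVtop : V = ⊤
  · -- `M ≀ N` is a quotient of the residual
    refine A.mem_of_surjective ((restr (B.residual G)).comp (Subgroup.inclusion hUL)) ?_ hA
    intro w
    have hw : w ∈ V := by rw [hVtop]; trivial
    obtain ⟨l, hl, rfl⟩ := hw
    exact ⟨⟨l.1, hl⟩, rfl⟩
  exfalso
  by_cases hN : B.residual G = ⊥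
  · -- trivial residual
    have hright : ∀ u ∈ B.residual (RegularWreathProduct M G), u.right = 1 := by
      intro u hu
      have h1 : u.right ∈ B.residual G := hUL hu
      rw [hN] at h1
      exact h1
    have hn : (B.residual (RegularWreathProduct M G)).Normal := inferInstance
    have hrange : (coord _ hright 1).range ≠ ⊤ := by
      intro htop
      apply hVtop
      rw [eq_top_iff]
      intro w _
      have h0 : ∀ y : G, y ∈ B.residual G → y = 1 := by
        intro y hy
        rw [hN] at hy
        exact hy
      have hsub : ∀ x : B.residual G, x = 1 := fun x => Subtype.ext (h0 _ x.2)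
      have h2 : w.left 1 ∈ (coord _ hright 1).range := by rw [htop]; trivial
      obtain ⟨u, hu⟩ := h2
      have h3 := hmemV u.1 u.2
      convert h3 using 1
      apply RegularWreathProduct.ext
      · funext x
        rw [hsub x, ← hu]
        rfl
      · rw [hsub w.right]
        exact (hsub _).symm
    have hrn : ((coord _ hright 1).range).Normal := coord_range_normal _ hn hright 1
    have hnt : Nontrivial (M ⧸ (coord _ hright 1).range) := by
      by_contra hc
      rw [not_nontrivial_iff_subsingleton, QuotientGroup.subsingleton_iff] at hc
      exact hrange hc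
    obtain ⟨T, i1, i2, i3, f, hf⟩ :=
      exists_simple_quotient _ (M ⧸ (coord _ hright 1).range) le_rfl
    have hf' : Function.Surjective (f.comp (QuotientGroup.mk' (coord _ hright 1).range)) :=
      hf.comp (QuotientGroup.mk'_surjective _)
    have hker : B.residual (RegularWreathProduct M G) ≤
        (mapLeft (U := G) (f.comp (QuotientGroup.mk' (coord _ hright 1).range))).ker := by
      intro u hu
      rw [MonoidHom.mem_ker]
      apply RegularWreathProduct.ext
      · funext x
        have h4 : coord _ hright x ⟨u, hu⟩ ∈ (coord _ hright x).range := ⟨_, rfl⟩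
        rw [coord_range_eq _ hn hright x] at h4
        have h5 : ((coord _ hright x ⟨u, hu⟩ : M) : M ⧸ (coord _ hright 1).range) = 1 :=
          (QuotientGroup.eq_one_iff _).2 h4
        show f ((u.left x : M) : M ⧸ (coord _ hright 1).range) = 1
        have h6 : ((u.left x : M) : M ⧸ (coord _ hright 1).range) = 1 := h5
        rw [h6, map_one]
      · exact hright u hu
    have hmem := (B.residual_le_ker_iff _ (mapLeft_surj (U := G) _ hf')).1 hker
    refine hT T _ hf' (B.iso (RegularWreathProduct.congr (MulEquiv.refl T) ?_) hmem)
    exact QuotientGroup.quotientBot.symm.trans (QuotientGroup.quotientMulEquivOfEq hN.symm)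
  · -- nontrivial residual
    have hnt : Nontrivial (B.residual G) := (Subgroup.nontrivial_iff_ne_bot _).2 hN
    have hfin : Fintype (B.residual G) := Fintype.ofFinite _
    obtain ⟨p, hp, χ, hχ, hprod⟩ := hC1 M (B.residual G) V (by
      intro n
      have h1 : (n : G) ∈ (B.residual (RegularWreathProduct M G)).map
          (rightHom : RegularWreathProduct M G →* G) := by rw [hmap]; exact n.2
      obtain ⟨u, hu, hun⟩ := h1
      exact ⟨_, hmemV u hu, Subtype.ext hun⟩) hVtop
    have h2 := hC2 B M G p χ hχ (by
      intro u hu hur
      exact hprod _ (hmemV u hu) (Subtype.ext hur))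
    have : IsSimpleGroup (Zp p) := isSimpleGroup_of_prime_card (card_Zp p)
    exact hT (Zp p) χ hχ h2

end H190R3.UF
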